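import Mathlib

/-! Core of the bound for monochromatic convex polygons in two-coloured point sets. -/

namespace W443.MC

open Finset

abbrev Pt := ℝ × ℝ

/-- slope of the pair `a, b` in the coordinates `X, Y` -/
noncomputable def sl (X Y : Pt → ℝ) (a b : Pt) : ℝ := (Y b - Y a) / (X b - X a)

theorem sl_med {X Y : Pt → ℝ} {a b c : Pt} (h1 : X a < X b) (h2 : X b < X c) :
    ∃ t : ℝ, 0 < t ∧ t < 1 ∧ sl X Y a c = t * sl X Y a b + (1 - t) * sl X Y b c := by
  have h3 : 0 < X b - X a := by linarith
  have h4 : 0 < X c - X b := by linarith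
  have h5 : 0 < X c - X a := by linarith
  refine ⟨(X b - X a) / (X c - X a), div_pos h3 h5, ?_, ?_⟩
  · rw [div_lt_one h5]; linarith
  · unfold sl
    field_simp
    ring

theorem sl_lt_right {X Y : Pt → ℝ} {a b c : Pt} (h1 : X a < X b) (h2 : X b < X c)
    (h : sl X Y a b < sl X Y b c) : sl X Y a c < sl X Y b c := by
  obtain ⟨t, ht0, ht1, e⟩ := sl_med (Y := Y) h1 h2
  rw [e]; nlinarith

theorem sl_ge_right {X Y : Pt → ℝ} {a b c : Pt} (h1 : X a < X b) (h2 : X b < X c)
    (h : sl X Y b c ≤ sl X Y a b) : sl X Y b c ≤ sl X Y a c := by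
  obtain ⟨t, ht0, ht1, e⟩ := sl_med (Y := Y) h1 h2
  rw [e]; nlinarith

/-- number of points needed: `u` earlier picks, `n` further picks and one more point -/
def F : ℕ → ℕ → ℕ
  | _, 0 => 1
  | u, n + 1 => 2 * (u + 1) * F (u + 1) n

theorem F_pos (u n : ℕ) : 0 < F u n := by
  induction n generalizing u with
  | zero => simp [F]
  | succ n ih => simp only [F]; have := ih (u + 1); positivity

theorem F_eq (u n : ℕ) : F u n * u.factorial = 2 ^ n * (u + n).factorial := by
  induction n generalizing u with
  | zero => simp [F]
  | succ n ih =>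
    have h := ih (u + 1)
    rw [Nat.factorial_succ] at h
    simp only [F]
    have e : u + (n + 1) = u + 1 + n := by ring
    rw [e, pow_succ]
    calc 2 * (u + 1) * F (u + 1) n * u.factorial
        = 2 * (F (u + 1) n * ((u + 1) * u.factorial)) := by ring
      _ = 2 * (2 ^ n * (u + 1 + n).factorial) := by rw [h]
      _ = _ := by ring

theorem F_zero (n : ℕ) : F 0 n = 2 ^ n * n.factorial := by
  have := F_eq 0 n
  simpa using this

/-- The nested selection: colours depend on the first point only and turns on the first two. -/
theorem nested (X Y : Pt → ℝ) (χ : Pt → Pt → Bool) (n : ℕ) :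
    ∀ (U S : Finset Pt), Set.InjOn X S → (∀ u ∈ U, ∀ x ∈ S, X u < X x) → F U.card n ≤ S.card →
      ∃ v : ℕ → Pt, (∀ i, i ≤ n → v i ∈ S) ∧ (∀ i j, i < j → j ≤ n → X (v i) < X (v j)) ∧
        (∀ i j, i < j → j ≤ n → χ (v i) (v j) = χ (v i) (v n)) ∧
        (∀ u ∈ U, ∀ i j, i < j → j ≤ n →
          (sl X Y u (v i) < sl X Y (v i) (v j) ↔ sl X Y u (v i) < sl X Y (v i) (v n))) ∧
        (∀ k i j, k < i → i < j → j ≤ n →
          (sl X Y (v k) (v i) < sl X Y (v i) (v j) ↔
            sl X Y (v k) (v i) < sl X Y (v i) (v n))) := by
  classical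
  induction n with
  | zero =>
    intro U S hX hU hS
    have : S.Nonempty := by
      rw [← Finset.card_pos]
      exact lt_of_lt_of_le (by simp [F]) hS
    obtain ⟨w, hw⟩ := this
    refine ⟨fun _ => w, fun i _ => hw, ?_, ?_, ?_, ?_⟩ <;> intros <;> omega
  | succ n ih =>
    intro U S hX hU hS
    have hFp := F_pos (U.card + 1) n
    have hS' : 2 * (U.card + 1) * F (U.card + 1) n ≤ S.card := hS
    have hSne : S.Nonempty := by
      rw [← Finset.card_pos]
      exact lt_of_lt_of_le (by positivity) hS'
    obtain ⟨w, hw, hmin⟩ := Finset.exists_min_image S X hSne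
    have hlt : ∀ x ∈ S.erase w, X w < X x := by
      intro x hx
      have hxS := Finset.mem_of_mem_erase hx
      rcases lt_or_eq_of_le (hmin x hxS) with h | h
      · exact h
      · exact absurd (hX hxS hw h.symm) (Finset.ne_of_mem_erase hx)
    let R : Pt → Finset Pt := fun x => U.filter (fun u => sl X Y u w < sl X Y w x)
    let f : Pt → Bool × ℕ := fun x => (χ w x, (R x).card)
    have hmaps : ∀ x ∈ S.erase w, f x ∈ (Finset.univ : Finset Bool) ×ˢ Finset.range (U.card + 1) := by
      intro x _
      simp only [f, Finset.mem_product, Finset.mem_univ, Finset.mem_range, true_and]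
      exact Nat.lt_succ_of_le (Finset.card_filter_le _ _)
    have hcard : ((Finset.univ : Finset Bool) ×ˢ Finset.range (U.card + 1)).card *
        (F (U.card + 1) n - 1) < (S.erase w).card := by
      rw [Finset.card_erase_of_mem hw, Finset.card_product, Finset.card_range, Finset.card_univ,
        Fintype.card_bool]
      obtain ⟨k, hk⟩ : ∃ k, F (U.card + 1) n = k + 1 := ⟨F (U.card + 1) n - 1, by omega⟩
      rw [hk] at hS' ⊢
      have : 2 * (U.card + 1) * (k + 1) = 2 * (U.card + 1) * k + 2 * (U.card + 1) := by ring
      rw [this] at hS'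
      simp only [Nat.add_sub_cancel]
      omega
    obtain ⟨y, _, hy⟩ := Finset.exists_lt_card_fiber_of_mul_lt_card_of_maps_to hmaps hcard
    set S1 := (S.erase w).filter (fun x => f x = y) with hS1
    have hS1sub : ∀ x ∈ S1, x ∈ S.erase w := fun x hx => (Finset.mem_filter.1 hx).1
    have hf : ∀ x ∈ S1, f x = y := fun x hx => (Finset.mem_filter.1 hx).2
    have hwU : w ∉ U := fun h => lt_irrefl _ (hU w h w hw)
    have hUc : (insert w U).card = U.card + 1 := Finset.card_insert_of_notMem hwU
    obtain ⟨v, hv1, hv2, hv3, hv4, hv5⟩ := ih (insert w U) S1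
      (fun a ha b hb h => hX (Finset.mem_of_mem_erase (hS1sub a ha))
        (Finset.mem_of_mem_erase (hS1sub b hb)) h)
      (by
        intro u hu x hx
        rcases Finset.mem_insert.1 hu with rfl | hu
        · exact hlt x (hS1sub x hx)
        · exact hU u hu x (Finset.mem_of_mem_erase (hS1sub x hx)))
      (by rw [hUc]; omega)
    have hR : ∀ a ∈ S1, ∀ b ∈ S1, R a = R b := by
      intro a ha b hb
      have e : (R a).card = (R b).card := by
        have h1 := hf a ha
        have h2 := hf b hb
        have := h1.trans h2.symm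
        exact congrArg Prod.snd this
      rcases le_total (sl X Y w a) (sl X Y w b) with h | h
      · apply Finset.eq_of_subset_of_card_le _ e.ge
        intro u hu
        simp only [R, Finset.mem_filter] at hu ⊢
        exact ⟨hu.1, lt_of_lt_of_le hu.2 h⟩
      · symm
        apply Finset.eq_of_subset_of_card_le _ e.le
        intro u hu
        simp only [R, Finset.mem_filter] at hu ⊢
        exact ⟨hu.1, lt_of_lt_of_le hu.2 h⟩
    refine ⟨fun i => Nat.casesOn i w v, ?_, ?_, ?_, ?_, ?_⟩
    · intro i hi
      cases i with
      | zero => exact hw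
      | succ i => exact Finset.mem_of_mem_erase (hS1sub _ (hv1 i (by omega)))
    · intro i j hij hj
      cases j with
      | zero => omega
      | succ j =>
        cases i with
        | zero => exact hlt _ (hS1sub _ (hv1 j (by omega)))
        | succ i => exact hv2 i j (by omega) (by omega)
    · intro i j hij hj
      cases j with
      | zero => omega
      | succ j =>
        cases i with
        | zero =>
          have h1 := hf _ (hv1 j (by omega))
          have h2 := hf _ (hv1 n le_rfl)
          exact congrArg Prod.fst (h1.trans h2.symm)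
        | succ i => exact hv3 i j (by omega) (by omega)
    · intro u hu i j hij hj
      cases j with
      | zero => omega
      | succ j =>
        cases i with
        | zero =>
          have h1 := hR _ (hv1 j (by omega)) _ (hv1 n le_rfl)
          have h2 : u ∈ R (v j) ↔ u ∈ R (v n) := by rw [h1]
          simp only [R, Finset.mem_filter, hu, true_and] at h2
          exact h2
        | succ i => exact hv4 u (Finset.mem_insert_of_mem hu) i j (by omega) (by omega)
    · intro k i j hki hij hj
      cases j with
      | zero => omega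
      | succ j =>
        cases i with
        | zero => omega
        | succ i =>
          cases k with
          | zero => exact hv4 w (Finset.mem_insert_self _ _) i j (by omega) (by omega)
          | succ k => exact hv5 k i j (by omega) (by omega) (by omega)

/-- Mirsky type lemma. -/
theorem mirsky (s : ℕ → ℕ → Prop) (b : ℕ) (a : ℕ) :
    ∀ C : Finset ℕ, (∀ i ∈ C, ∀ j ∈ C, ∀ k ∈ C, i < j → j < k → s i j → s j k → s i k) →
      a * b < C.card →
      (∃ T ⊆ C, T.card = a + 1 ∧ ∀ i ∈ T, ∀ j ∈ T, i < j → s i j) ∨
      (∃ T ⊆ C, T.card = b + 1 ∧ ∀ i ∈ T, ∀ j ∈ T, i < j → ¬ s i j) := by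
  classical
  induction a with
  | zero =>
    intro C _ hC
    left
    obtain ⟨x, hx⟩ : C.Nonempty := by
      rw [← Finset.card_pos]; omega
    refine ⟨{x}, by simpa using hx, by simp, ?_⟩
    intro i hi j hj hij
    simp only [Finset.mem_singleton] at hi hj
    omega
  | succ a ih =>
    intro C htr hC
    set M := C.filter (fun j => ∀ i ∈ C, i < j → ¬ s i j) with hM
    by_cases hMc : b + 1 ≤ M.card
    · right
      obtain ⟨T, hT, hTc⟩ := Finset.exists_subset_card_eq hMc
      refine ⟨T, hT.trans (Finset.filter_subset _ _), hTc, ?_⟩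
      intro i hi j hj hij
      have h1 := Finset.mem_filter.1 (hT hj)
      exact h1.2 i (Finset.mem_filter.1 (hT hi)).1 hij
    · have hcard : a * b < (C \ M).card := by
        have hMC : M ⊆ C := Finset.filter_subset _ _
        rw [Finset.card_sdiff_of_subset hMC]
        have hMle := Finset.card_le_card hMC
        have : (a + 1) * b = a * b + b := by ring
        rw [this] at hC
        omega
      rcases ih (C \ M) (fun i hi j hj k hk => htr i (Finset.mem_sdiff.1 hi).1 j
        (Finset.mem_sdiff.1 hj).1 k (Finset.mem_sdiff.1 hk).1) hcard with ⟨T, hT, hTc, h⟩ | ⟨T, hT, hTc, h⟩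
      · left
        have hTne : T.Nonempty := by rw [← Finset.card_pos]; omega
        have hj0 := Finset.min'_mem T hTne
        have h1 := Finset.mem_sdiff.1 (hT hj0)
        have h2 : ∃ i ∈ C, i < T.min' hTne ∧ s i (T.min' hTne) := by
          by_contra hcon
          apply h1.2
          rw [hM, Finset.mem_filter]
          refine ⟨h1.1, fun i hi hij hs => hcon ⟨i, hi, hij, hs⟩⟩
        obtain ⟨i, hi, hij, hs⟩ := h2
        have hiT : i ∉ T := fun h => absurd (Finset.min'_le T i h) (by omega)
        refine ⟨insert i T, ?_, by rw [Finset.card_insert_of_notMem hiT, hTc], ?_⟩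
        · intro x hx
          rcases Finset.mem_insert.1 hx with rfl | hx
          · exact hi
          · exact (Finset.mem_sdiff.1 (hT hx)).1
        · intro x hx y hy hxy
          rcases Finset.mem_insert.1 hx with rfl | hx
          · rcases Finset.mem_insert.1 hy with rfl | hy
            · omega
            · rcases lt_or_eq_of_le (Finset.min'_le T y hy) with hlt | heq
              · exact htr x hi _ h1.1 y (Finset.mem_sdiff.1 (hT hy)).1 hij hlt hs
                  (h _ hj0 y hy hlt)
              · rw [← heq]; exact hs
          · rcases Finset.mem_insert.1 hy with hy | hy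
            · have := Finset.min'_le T x hx
              omega
            · exact h x hx y hy hxy
      · right
        exact ⟨T, hT.trans Finset.sdiff_subset, hTc, h⟩

end W443.MC
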