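import Pool.Agent.W443.MC.Core

/-! Monochromatic convex polygons: convexity of cups and caps, and the final bound. -/

namespace W443.MC

open Finset

theorem cup_conv (X Y : Pt →ₗ[ℝ] ℝ) (Q : Finset Pt) (hX : Set.InjOn X Q)
    (hQ : ∀ a ∈ Q, ∀ b ∈ Q, ∀ c ∈ Q, X a < X b → X b < X c → sl X Y a b < sl X Y b c) :
    ∀ x ∈ Q, x ∉ convexHull ℝ ((Q : Set Pt) \ {x}) := by
  classical
  intro x hx
  suffices h : ∃ l : Pt →ₗ[ℝ] ℝ, ∀ q ∈ Q, q ≠ x → l x < l q by
    obtain ⟨l, hl⟩ := h
    intro hmem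
    have hsub : convexHull ℝ ((Q : Set Pt) \ {x}) ⊆ {z | l x < l z} := by
      apply convexHull_min
      · intro q hq
        exact hl q hq.1 hq.2
      · exact convex_halfSpace_gt l.isLinear (l x)
    have h := hsub hmem
    simp only [Set.mem_ofPred_eq, lt_irrefl] at h
  set A := Q.filter (fun q => X q < X x) with hA
  set C := Q.filter (fun q => X x < X q) with hC
  have hne : ∀ q ∈ Q, q ≠ x → X q < X x ∨ X x < X q := by
    intro q hq hqx
    rcases lt_trichotomy (X q) (X x) with h | h | h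
    · exact Or.inl h
    · exact absurd (hX hq hx h) hqx
    · exact Or.inr h
  rcases A.eq_empty_or_nonempty with hAe | hAn
  · refine ⟨X, fun q hq hqx => ?_⟩
    rcases hne q hq hqx with h | h
    · have : q ∈ A := Finset.mem_filter.2 ⟨hq, h⟩
      rw [hAe] at this
      simp at this
    · exact h
  rcases C.eq_empty_or_nonempty with hCe | hCn
  · refine ⟨-X, fun q hq hqx => ?_⟩
    rcases hne q hq hqx with h | h
    · simpa using h
    · have : q ∈ C := Finset.mem_filter.2 ⟨hq, h⟩
      rw [hCe] at this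
      simp at this
  obtain ⟨a, ha, hamax⟩ := Finset.exists_max_image A (fun q => sl X Y q x) hAn
  obtain ⟨c, hc, hcmin⟩ := Finset.exists_min_image C (fun q => sl X Y x q) hCn
  have ha' := Finset.mem_filter.1 ha
  have hc' := Finset.mem_filter.1 hc
  have hac := hQ a ha'.1 x hx c hc'.1 ha'.2 hc'.2
  obtain ⟨t, ht1, ht2⟩ := exists_between hac
  refine ⟨Y - t • X, fun q hq hqx => ?_⟩
  simp only [LinearMap.sub_apply, LinearMap.smul_apply, smul_eq_mul]
  rcases hne q hq hqx with h | h
  · have h1 : sl X Y q x < t := lt_of_le_of_lt (hamax q (Finset.mem_filter.2 ⟨hq, h⟩)) ht1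
    unfold sl at h1
    rw [div_lt_iff₀ (by linarith)] at h1
    linarith
  · have h1 : t < sl X Y x q := lt_of_lt_of_le ht2 (hcmin q (Finset.mem_filter.2 ⟨hq, h⟩))
    unfold sl at h1
    rw [lt_div_iff₀ (by linarith)] at h1
    linarith

/-- No three points of `P` are collinear. -/
def GenPos (P : Finset (ℝ × ℝ)) : Prop :=
  ∀ a ∈ P, ∀ b ∈ P, ∀ c ∈ P, a ≠ b → a ≠ c → b ≠ c → ¬ Collinear ℝ {a, b, c}

/-- Convex position: each point is a vertex of the convex hull, that is, it does not lie in the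
convex hull of the others. -/
def ConvPos (Q : Finset (ℝ × ℝ)) : Prop :=
  ∀ x ∈ Q, x ∉ convexHull ℝ ((Q : Set (ℝ × ℝ)) \ {x})

/-- The property in the definition of `g p`. -/
def MonoProp (p n : ℕ) : Prop :=
  ∀ P : Finset (ℝ × ℝ), P.card = n → GenPos P → ∀ χ : Sym2 (ℝ × ℝ) → Bool,
    ∃ Q ⊆ P, Q.card = p ∧ ConvPos Q ∧ ∃ c : Bool, ∀ x ∈ Q, ∀ y ∈ Q, x ≠ y → χ s(x, y) = c

/-- `g p` is the least `n` with `MonoProp p n`. -/
noncomputable def g (p : ℕ) : ℕ := sInf {n | MonoProp p n}

theorem exists_shear (P : Finset Pt) : ∃ e : ℝ, ∀ a ∈ P, ∀ b ∈ P,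
    a.1 + e * a.2 = b.1 + e * b.2 → a = b := by
  classical
  obtain ⟨e, he⟩ := Infinite.exists_notMem_finset
    ((P ×ˢ P).image (fun z : Pt × Pt => -(z.1.1 - z.2.1) / (z.1.2 - z.2.2)))
  refine ⟨e, fun a ha b hb hab => ?_⟩
  by_cases h2 : a.2 = b.2
  · apply Prod.ext _ h2
    rw [h2] at hab
    linarith
  · exfalso
    apply he
    rw [Finset.mem_image]
    refine ⟨(a, b), Finset.mem_product.2 ⟨ha, hb⟩, ?_⟩
    have h3 : a.2 - b.2 ≠ 0 := sub_ne_zero.2 h2
    simp only
    rw [div_eq_iff h3]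
    linarith

/-- the two coordinates after the shear -/
noncomputable def XX (e : ℝ) : Pt →ₗ[ℝ] ℝ := LinearMap.fst ℝ ℝ ℝ + e • LinearMap.snd ℝ ℝ ℝ
noncomputable def YY : Pt →ₗ[ℝ] ℝ := LinearMap.snd ℝ ℝ ℝ

theorem XX_apply (e : ℝ) (a : Pt) : XX e a = a.1 + e * a.2 := by simp [XX]
theorem YY_apply (a : Pt) : YY a = a.2 := by simp [YY]

theorem collinear_of_sl (e : ℝ) {a b c : Pt} (h1 : XX e a < XX e b) (h2 : XX e b < XX e c)
    (h : sl (XX e) YY a b = sl (XX e) YY b c) : Collinear ℝ {a, b, c} := by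
  rw [collinear_iff_of_mem (p₀ := a) (by simp)]
  refine ⟨b - a, ?_⟩
  have h3 : 0 < XX e b - XX e a := by linarith
  have h4 : 0 < XX e c - XX e b := by linarith
  set r := (XX e c - XX e a) / (XX e b - XX e a) with hr
  have hrX : r * (XX e b - XX e a) = XX e c - XX e a := by
    rw [hr]; field_simp
  have hrY : r * (YY b - YY a) = YY c - YY a := by
    unfold sl at h
    rw [div_eq_div_iff h3.ne' h4.ne'] at h
    rw [hr, div_mul_eq_mul_div, div_eq_iff h3.ne']
    linarith
  simp only [XX_apply, YY_apply] at hrX hrY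
  intro p hp
  simp only [Set.mem_insert_iff, Set.mem_singleton_iff] at hp
  rcases hp with rfl | rfl | rfl
  · exact ⟨0, by simp⟩
  · exact ⟨1, by simp⟩
  · refine ⟨r, ?_⟩
    have e2 : p.2 = r * (b.2 - a.2) + a.2 := by linarith
    have e1 : p.1 = r * (b.1 - a.1) + a.1 := by
      have : e * (r * (b.2 - a.2)) = e * (p.2 - a.2) := by rw [hrY]
      linarith
    apply Prod.ext
    · simpa using e1
    · simpa using e2

theorem sl_neg (X Y : Pt →ₗ[ℝ] ℝ) (a b : Pt) :
    sl X (fun z => (-Y) z) a b = - sl X Y a b := by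
  simp only [sl, LinearMap.neg_apply]
  ring

theorem mono (q : ℕ) (P : Finset Pt) (hc : 2 ^ (2 * q ^ 2 + 1) * (2 * q ^ 2 + 1).factorial ≤ P.card)
    (hG : GenPos P) (χ : Sym2 Pt → Bool) :
    ∃ Q ⊆ P, Q.card = q + 2 ∧ ConvPos Q ∧ ∃ c : Bool, ∀ x ∈ Q, ∀ y ∈ Q, x ≠ y → χ s(x, y) = c := by
  classical
  set m := 2 * q ^ 2 + 1 with hm
  obtain ⟨e, he⟩ := exists_shear P
  have hX : Set.InjOn (XX e) (P : Set Pt) := by
    intro a ha b hb hab
    rw [XX_apply, XX_apply] at hab
    exact he a ha b hb hab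
  obtain ⟨v, hv1, hv2, hv3, -, hv5⟩ := nested (XX e) YY (fun a b => χ s(a, b)) m ∅ P hX
    (by simp) (by rw [Finset.card_empty, F_zero]; exact hc)
  -- the colour classes
  let Cc : Bool → Finset ℕ := fun c => (Finset.range m).filter (fun i => χ s(v i, v m) = c)
  have hCc : ∃ c, q * q < (Cc c).card := by
    by_contra hcon
    push Not at hcon
    have h1 := hcon true
    have h2 := hcon false
    have h3 : (Cc true).card + (Cc false).card = m := by
      have h4 := Finset.card_filter_add_card_filter_not (s := Finset.range m)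
        (fun i => χ s(v i, v m) = true)
      simp only [Bool.not_eq_true, Finset.card_range] at h4
      exact h4
    have h5 : q ^ 2 = q * q := sq q
    omega
  obtain ⟨c, hcc⟩ := hCc
  let s : ℕ → ℕ → Prop := fun i k => sl (XX e) YY (v i) (v k) < sl (XX e) YY (v k) (v m)
  have htr : ∀ i ∈ Cc c, ∀ j ∈ Cc c, ∀ k ∈ Cc c, i < j → j < k → s i j → s j k → s i k := by
    intro i hi j hj k hk hij hjk h1 h2
    have hkm : k < m := Finset.mem_range.1 (Finset.mem_filter.1 hk).1
    have h3 := (hv5 i j k hij hjk hkm.le).2 h1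
    have h4 := sl_lt_right (hv2 i j hij (by omega)) (hv2 j k hjk hkm.le) h3
    exact h4.trans h2
  have key : ∀ T ⊆ Cc c, T.card = q + 1 →
      ((∀ i ∈ T, ∀ j ∈ T, i < j → s i j) ∨ (∀ i ∈ T, ∀ j ∈ T, i < j → ¬ s i j)) →
      ∃ Q ⊆ P, Q.card = q + 2 ∧ ConvPos Q ∧ ∃ c : Bool, ∀ x ∈ Q, ∀ y ∈ Q, x ≠ y → χ s(x, y) = c := by
    intro T hT hTc hhom
    have hTm : ∀ i ∈ T, i < m := fun i hi => Finset.mem_range.1 (Finset.mem_filter.1 (hT hi)).1
    have hmT : m ∉ T := fun h => lt_irrefl _ (hTm m h)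
    have hle : ∀ i ∈ insert m T, i ≤ m := by
      intro i hi
      rcases Finset.mem_insert.1 hi with rfl | hi
      · exact le_rfl
      · exact (hTm i hi).le
    have hinj : Set.InjOn v (insert m T : Finset ℕ) := by
      intro i hi j hj hij
      by_contra hne
      rcases lt_or_gt_of_ne hne with h | h
      · have := hv2 i j h (hle j hj)
        rw [hij] at this
        exact lt_irrefl _ this
      · have := hv2 j i h (hle i hi)
        rw [hij] at this
        exact lt_irrefl _ this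
    have hlt : ∀ i ∈ insert m T, ∀ j ∈ insert m T, XX e (v i) < XX e (v j) → i < j := by
      intro i hi j hj h
      by_contra hne
      rcases lt_or_eq_of_le (not_lt.1 hne) with h' | h'
      · exact absurd (hv2 j i h' (hle i hi)) (not_lt.2 h.le)
      · rw [h'] at h
        exact lt_irrefl _ h
    set Q := (insert m T).image v with hQ
    have hQP : Q ⊆ P := by
      intro x hx
      obtain ⟨i, hi, rfl⟩ := Finset.mem_image.1 hx
      exact hv1 i (hle i hi)
    refine ⟨Q, hQP, ?_, ?_, c, ?_⟩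
    · rw [hQ, Finset.card_image_of_injOn hinj, Finset.card_insert_of_notMem hmT, hTc]
    · rcases hhom with hhom | hhom
      · apply cup_conv (XX e) YY Q (hX.mono hQP)
        intro a ha b hb c' hc' hab hbc
        obtain ⟨i, hi, rfl⟩ := Finset.mem_image.1 ha
        obtain ⟨k, hk, rfl⟩ := Finset.mem_image.1 hb
        obtain ⟨l, hl, rfl⟩ := Finset.mem_image.1 hc'
        have hik := hlt i hi k hk hab
        have hkl := hlt k hk l hl hbc
        have hlm := hle l hl
        have hkT : k ∈ T := by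
          rcases Finset.mem_insert.1 hk with h | h
          · omega
          · exact h
        have hiT : i ∈ T := by
          rcases Finset.mem_insert.1 hi with h | h
          · omega
          · exact h
        exact (hv5 i k l hik hkl hlm).2 (hhom i hiT k hkT hik)
      · apply cup_conv (XX e) (-YY) Q (hX.mono hQP)
        intro a ha b hb c' hc' hab hbc
        have e1 := sl_neg (XX e) YY a b
        have e2 := sl_neg (XX e) YY b c'
        change sl (XX e) (fun z => (-YY) z) a b < sl (XX e) (fun z => (-YY) z) b c'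
        rw [e1, e2, neg_lt_neg_iff]
        have haP := hQP ha
        have hbP := hQP hb
        have hcP := hQP hc'
        have hne : sl (XX e) YY b c' ≠ sl (XX e) YY a b := by
          intro h
          refine hG a haP b hbP c' hcP ?_ ?_ ?_ (collinear_of_sl e hab hbc h.symm)
          · rintro rfl; exact lt_irrefl _ hab
          · rintro rfl; exact lt_irrefl _ (hab.trans hbc)
          · rintro rfl; exact lt_irrefl _ hbc
        apply lt_of_le_of_ne _ hne
        obtain ⟨i, hi, rfl⟩ := Finset.mem_image.1 ha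
        obtain ⟨k, hk, rfl⟩ := Finset.mem_image.1 hb
        obtain ⟨l, hl, rfl⟩ := Finset.mem_image.1 hc'
        have hik := hlt i hi k hk hab
        have hkl := hlt k hk l hl hbc
        have hlm := hle l hl
        have hkT : k ∈ T := by
          rcases Finset.mem_insert.1 hk with h | h
          · omega
          · exact h
        have hiT : i ∈ T := by
          rcases Finset.mem_insert.1 hi with h | h
          · omega
          · exact h
        have h6 := hhom i hiT k hkT hik
        exact not_lt.1 (fun h => h6 ((hv5 i k l hik hkl hlm).1 h))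
    · have hcol : ∀ i ∈ insert m T, ∀ j ∈ insert m T, i < j → χ s(v i, v j) = c := by
        intro i hi j hj hij
        have hjm := hle j hj
        have hiT : i ∈ T := by
          rcases Finset.mem_insert.1 hi with h | h
          · omega
          · exact h
        rw [hv3 i j hij hjm]
        exact (Finset.mem_filter.1 (hT hiT)).2
      intro x hx y hy hxy
      obtain ⟨i, hi, rfl⟩ := Finset.mem_image.1 hx
      obtain ⟨j, hj, rfl⟩ := Finset.mem_image.1 hy
      have hij : i ≠ j := fun h => hxy (by rw [h])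
      rcases lt_or_gt_of_ne hij with h | h
      · exact hcol i hi j hj h
      · rw [Sym2.eq_swap]
        exact hcol j hj i hi h
  rcases mirsky s q q (Cc c) htr hcc with ⟨T, hT, hTc, h⟩ | ⟨T, hT, hTc, h⟩
  · exact key T hT hTc (Or.inl h)
  · exact key T hT hTc (Or.inr h)

theorem monoProp (p n : ℕ) (hp : 2 ≤ p)
    (hn : 2 ^ (2 * (p - 2) ^ 2 + 1) * (2 * (p - 2) ^ 2 + 1).factorial ≤ n) : MonoProp p n := by
  intro P hP hG χ
  obtain ⟨Q, h1, h2, h3⟩ := mono (p - 2) P (by rw [hP]; exact hn) hG χ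
  exact ⟨Q, h1, by omega, h3⟩

theorem pow_bound (p : ℕ) (hp : 2 ≤ p) :
    2 ^ (2 * (p - 2) ^ 2 + 1) * (2 * (p - 2) ^ 2 + 1).factorial ≤ (2 * p) ^ (4 * p ^ 2) := by
  obtain ⟨q, rfl⟩ : ∃ q, p = q + 2 := ⟨p - 2, by omega⟩
  simp only [Nat.add_sub_cancel]
  set m := 2 * q ^ 2 + 1 with hm
  have h1 : 2 ^ m * m.factorial ≤ (2 * m) ^ m := by
    rw [mul_pow]
    exact Nat.mul_le_mul_left _ (Nat.factorial_le_pow m)
  have h2 : 2 * m ≤ (2 * (q + 2)) ^ 2 := by
    rw [hm]; nlinarith
  have h3 : (2 * m) ^ m ≤ ((2 * (q + 2)) ^ 2) ^ m := Nat.pow_le_pow_left h2 m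
  rw [← pow_mul] at h3
  have h4 : (2 * (q + 2)) ^ (2 * m) ≤ (2 * (q + 2)) ^ (4 * (q + 2) ^ 2) := by
    apply Nat.pow_le_pow_right (by omega)
    rw [hm]; nlinarith
  exact h1.trans (h3.trans h4)

end W443.MC
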